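import Pool.Agent.Work.MP_7fa5ba_co.TowerNum
import Pool.Agent.Work.MP_073f2d_co.Blow

/-!
# MP_7fa5ba_co: linear coverings of radius two of density tending to one
-/

set_option autoImplicit false

namespace Pool.Agent.MP7fa5ba

open N8b55e67f Filter
open scoped ENNReal Pointwise

section sys

variable {E : Type} [Field E] [Finite E]

omit [Finite E] in
theorem Sys.B_zero {s : ℕ} (S : Sys E s) (v : E × S.Y) : S.B v 0 = 0 := by
  have h := S.add v 0 0
  rw [add_zero] at h
  have h5 : S.B v 0 + 0 = S.B v 0 + S.B v 0 := by rw [add_zero]; exact h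
  exact (add_left_cancel h5).symm

omit [Finite E] in
theorem Sys.φ_zero {s : ℕ} (S : Sys E s) : S.φ 0 = 0 := by
  have h := S.quad 0 0
  rw [add_zero, S.B_zero, add_zero] at h
  have h5 : S.φ 0 + 0 = S.φ 0 + S.φ 0 := by rw [add_zero]; exact h
  exact (add_left_cancel h5).symm

omit [Finite E] in
theorem Sys.B_self [CharP E 2] {s : ℕ} (S : Sys E s) (v : E × S.Y) : S.B v v = 0 := by
  have h := S.quad v v
  have h1 : v + v = 0 := Prod.ext (CharTwo.add_self_eq_zero _) (ZModModule.add_self _)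
  rw [h1, S.φ_zero, ZModModule.add_self, zero_add] at h
  exact h.symm

/-- the polar form is onto -/
theorem Sys.surj [CharP E 2] (S : Sys E 1) (x : E) (y : S.Y) (hx : x ≠ 0) :
    Function.Surjective (S.B (x, y)) := by
  let D : (E × S.Y) →+ S.Z :=
    { toFun := S.B (x, y)
      map_zero' := S.B_zero _
      map_add' := S.add _ }
  have hker : ∀ v : E × S.Y, S.B (x, y) v = 0 → v = 0 ∨ v = (x, y) := by
    rintro ⟨x', y'⟩ h
    have h1 := S.k1 x y x' y' hx h
    rw [pow_one] at h1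
    have h2 : x' / x = 0 ∨ x' / x = 1 := by
      have : x' / x * (x' / x - 1) = 0 := by
        rw [mul_sub, mul_one, ← sq, h1, sub_self]
      rcases mul_eq_zero.1 this with h | h
      · exact Or.inl h
      · exact Or.inr (sub_eq_zero.1 h)
    rcases h2 with h2 | h2
    · left
      have hx' : x' = 0 := (div_eq_zero_iff.1 h2).resolve_right hx
      subst hx'
      rw [S.k2 x y y' hx h]
      rfl
    · right
      have hx' : x' = x := (div_eq_one_iff_eq hx).1 h2
      subst hx'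
      have h3 := S.add (x', y) (x', y') (x', y)
      rw [h, S.B_self, add_zero, Prod.mk_add_mk, CharTwo.add_self_eq_zero] at h3
      have h4 := S.k2 x' y _ hx h3
      have h5 : y' = y := by
        have h6 : y' + y + y = y := by rw [h4, zero_add]
        rwa [add_assoc, ZModModule.add_self, add_zero] at h6
      rw [h5]
  have hk2 : Nat.card D.ker ≤ 2 := by
    have hsub : (D.ker : Set (E × S.Y)) ⊆ {0, (x, y)} := by
      intro v hv
      exact hker v hv
    calc Nat.card D.ker = (D.ker : Set (E × S.Y)).ncard := rfl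
      _ ≤ ({0, (x, y)} : Set (E × S.Y)).ncard := Set.ncard_le_ncard hsub (Set.toFinite _)
      _ ≤ 2 := (Set.ncard_insert_le _ _).trans (by rw [Set.ncard_singleton])
  have hmul : Nat.card (E × S.Y) = Nat.card D.range * Nat.card D.ker := by
    rw [← AddSubgroup.index_ker, AddSubgroup.index_mul_card]
  have hc := S.card
  rw [Nat.card_prod, ← hc, pow_one] at hmul
  have hle : Nat.card S.Z ≤ Nat.card D.range := by
    have : Nat.card D.range * Nat.card D.ker ≤ Nat.card D.range * 2 :=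
      Nat.mul_le_mul_left _ hk2
    omega
  have htop : D.range = ⊤ := AddSubgroup.eq_top_of_le_card _ hle
  exact AddMonoidHom.range_eq_top.1 htop

/-- the covering -/
theorem Sys.cover [Algebra (ZMod 2) E] [CharP E 2] (S : Sys E 1) (d₁ d₂ N : ℕ)
    (hd : Nat.card S.Y * Nat.card S.Z = 2 ^ (d₁ + d₂))
    (hN : Nat.card E * Nat.card S.Y + (2 ^ d₁ + 2 ^ d₂) ≤ N) :
    minDensity N 2 ≤ (Nat.card (hammingBall N 2) : ℝ≥0∞) /
      ((Nat.card E * Nat.card S.Y * Nat.card S.Z : ℕ) : ℝ≥0∞) := by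
  classical
  have := Fintype.ofFinite E
  have := Fintype.ofFinite S.Y
  have hfr : Module.finrank (ZMod 2) (S.Y × S.Z) =
      Module.finrank (ZMod 2) ((Fin d₁ → ZMod 2) × (Fin d₂ → ZMod 2)) := by
    have h1 := Module.natCard_eq_pow_finrank (K := ZMod 2) (V := S.Y × S.Z)
    rw [Nat.card_prod, hd, Nat.card_zmod] at h1
    have h2 := Nat.pow_right_injective le_rfl h1
    rw [← h2]
    simp
  let e : (S.Y × S.Z) ≃ₗ[ZMod 2] ((Fin d₁ → ZMod 2) × (Fin d₂ → ZMod 2)) :=
    LinearEquiv.ofFinrankEq _ _ hfr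
  let ι := (E × S.Y) ⊕ ((Fin d₁ → ZMod 2) ⊕ (Fin d₂ → ZMod 2))
  let emb : S.Y × S.Z → (E × S.Y) × S.Z := fun p => ((0, p.1), p.2)
  let c : ι → (E × S.Y) × S.Z := Sum.elim (fun v => (v, S.φ v))
    (Sum.elim (fun a => emb (e.symm (a, 0))) (fun b => emb (e.symm (0, b))))
  have hι : Fintype.card ι ≤ N := by
    refine le_trans (le_of_eq ?_) hN
    simp only [ι, Fintype.card_sum, Fintype.card_prod, Fintype.card_fun, ZMod.card,
      Fintype.card_fin, Nat.card_eq_fintype_card]
  have h := Pool.Agent.MP073f2d.minDensity_le (W := (E × S.Y) × S.Z) N 2 c hι ?_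
  · refine h.trans (le_of_eq ?_)
    rw [Nat.card_prod, Nat.card_prod]
  · rintro ⟨⟨x, y⟩, z⟩
    by_cases hx : x = 0
    · subst hx
      refine ⟨{Sum.inr (Sum.inl (e (y, z)).1), Sum.inr (Sum.inr (e (y, z)).2)},
        Finset.card_le_two, ?_⟩
      rw [Finset.sum_pair (by
        intro h0
        exact Sum.inl_ne_inr (Sum.inr_injective h0))]
      show emb (e.symm ((e (y, z)).1, 0)) + emb (e.symm (0, (e (y, z)).2)) = ((0, y), z)
      have h1 : e.symm ((e (y, z)).1, 0) + e.symm (0, (e (y, z)).2) = (y, z) := by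
        rw [← map_add, Prod.mk_add_mk, add_zero, zero_add]
        exact e.symm_apply_apply (y, z)
      have h2 : emb (e.symm ((e (y, z)).1, 0)) + emb (e.symm (0, (e (y, z)).2)) =
          emb (e.symm ((e (y, z)).1, 0) + e.symm (0, (e (y, z)).2)) := by
        simp only [emb, Prod.mk_add_mk, add_zero, Prod.fst_add, Prod.snd_add]
      rw [h2, h1]
    · obtain ⟨v, hv⟩ := S.surj x y hx (z + S.φ (x, y))
      have hne : v ≠ (x, y) + v := by
        intro h0
        have h1 : (0 : E × S.Y) = (x, y) := by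
          have h2 : 0 + v = (x, y) + v := by rw [zero_add]; exact h0
          exact add_right_cancel h2
        exact hx (congrArg Prod.fst h1).symm
      refine ⟨{Sum.inl v, Sum.inl ((x, y) + v)}, Finset.card_le_two, ?_⟩
      rw [Finset.sum_pair (by
        intro h0
        exact hne (Sum.inl_injective h0))]
      show (v, S.φ v) + ((x, y) + v, S.φ ((x, y) + v)) = ((x, y), z)
      rw [Prod.mk_add_mk, S.quad, hv]
      have hvv : v + v = 0 := Prod.ext (CharTwo.add_self_eq_zero _) (ZModModule.add_self _)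
      refine Prod.ext ?_ ?_
      · show v + ((x, y) + v) = (x, y)
        rw [add_comm (x, y) v, ← add_assoc, hvv, zero_add]
      · show S.φ v + (S.φ (x, y) + S.φ v + (z + S.φ (x, y))) = z
        have h1 : S.φ v + (S.φ (x, y) + S.φ v + (z + S.φ (x, y))) =
            z + ((S.φ v + S.φ v) + (S.φ (x, y) + S.φ (x, y))) := by abel
        rw [h1, ZModModule.add_self, ZModModule.add_self, add_zero, add_zero]

end sys

/-- the sphere covering bound -/
theorem one_le_minDensity (n r : ℕ) : 1 ≤ minDensity n r := by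
  unfold minDensity
  refine le_iInf₂ fun V hV => ?_
  have h1 : Nat.card (𝔽₂ n) ≤ Nat.card V * Nat.card (hammingBall n r) := by
    have h2 : (V : Set (𝔽₂ n)) + hammingBall n r = Set.univ := hV
    have h3 := Set.natCard_add_le (s := (V : Set (𝔽₂ n))) (t := hammingBall n r)
    rw [h2, Nat.card_univ] at h3
    exact h3
  have h4 : Nat.card (𝔽₂ n) = 2 ^ n := by
    rw [Nat.card_eq_fintype_card]; simp [ZMod.card]
  rw [h4] at h1
  rw [ENNReal.le_div_iff_mul_le (Or.inl (by positivity)) (Or.inl (by simp)), one_mul]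
  exact_mod_cast h1

/-- coverings of radius two of density at most `(1 + 4 / 2 ^ (2 ^ i)) ^ 2` -/
theorem exists_cover (i : ℕ) : ∃ N : ℕ, 2 ^ 2 ^ i ≤ N ∧
    minDensity N 2 ≤ ENNReal.ofReal ((1 + 4 / 2 ^ 2 ^ i) ^ 2) := by
  set g : ℕ := 2 ^ i with hg
  have hg1 : 1 ≤ g := Nat.one_le_two_pow
  have hE : Nat.card (GaloisField 2 (2 ^ (i + 1))) = 2 ^ 2 ^ (i + 1) :=
    GaloisField.card 2 _ (by positivity)
  obtain ⟨S⟩ := exists_sys (E := GaloisField 2 (2 ^ (i + 1))) hE (i + 1) 0 (by omega)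
  rw [pow_zero] at S
  have hY := Module.natCard_eq_pow_finrank (K := ZMod 2) (V := S.Y)
  rw [Nat.card_zmod] at hY
  set y := Module.finrank (ZMod 2) S.Y with hy
  have hE' : Nat.card (GaloisField 2 (2 ^ (i + 1))) = 2 ^ (2 * g) := by
    rw [hE, hg, ← pow_succ']
  have hZ : Nat.card S.Z = 2 ^ (2 * g + y - 1) := by
    have h := S.card
    rw [hE', hY, ← pow_add, pow_one] at h
    have h2 : 2 ^ (2 * g + y) = 2 ^ (2 * g + y - 1) * 2 := by
      rw [← pow_succ]
      congr 1
      omega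
    omega
  have hd : Nat.card S.Y * Nat.card S.Z = 2 ^ ((y + g) + (y + g - 1)) := by
    rw [hY, hZ, ← pow_add]
    congr 1
    omega
  set N := 2 ^ (2 * g) * 2 ^ y + (2 ^ (y + g) + 2 ^ (y + g - 1)) with hN
  have hcov := S.cover (y + g) (y + g - 1) N hd (by rw [hE', hY])
  refine ⟨N, ?_, hcov.trans ?_⟩
  · have h1 : 2 ^ g ≤ 2 ^ (2 * g) := Nat.pow_le_pow_right (by norm_num) (by omega)
    have h2 : 2 ^ (2 * g) ≤ 2 ^ (2 * g) * 2 ^ y := Nat.le_mul_of_pos_right _ (by positivity)
    exact (h1.trans h2).trans (Nat.le_add_right _ _)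
  · rw [hE', hY, hZ]
    -- real variables
    set G : ℝ := 2 ^ g with hG
    have hG2 : (2 : ℝ) ≤ G := by
      rw [hG]
      calc (2 : ℝ) = 2 ^ 1 := by norm_num
        _ ≤ 2 ^ g := pow_le_pow_right₀ (by norm_num) hg1
    set M : ℝ := 2 ^ (2 * g) * 2 ^ y with hM
    have hMG : G ^ 2 ≤ M := by
      rw [hM, hG, ← pow_mul, mul_comm g 2]
      exact le_mul_of_one_le_right (by positivity) (one_le_pow₀ (by norm_num))
    have hM0 : 0 < M := by positivity
    have hpw : (2 : ℝ) ^ (y + g) = M / G := by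
      rw [hM, hG, eq_div_iff (by positivity), ← pow_add, ← pow_add]
      congr 1
      omega
    have hpw' : (2 : ℝ) ^ (y + g - 1) ≤ M / G := by
      rw [← hpw]
      exact pow_le_pow_right₀ (by norm_num) (by omega)
    have hNR : (N : ℝ) ≤ M * (1 + 2 / G) := by
      rw [hN]
      push_cast
      rw [← hM, hpw]
      have : M * (1 + 2 / G) = M + (M / G + M / G) := by ring
      rw [this]
      linarith
    have hball : (Nat.card (hammingBall N 2) : ℝ) ≤ ((N : ℝ) + 2) * (N + 1) / 2 := by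
      have h2 := Pool.Agent.MP073f2d.card_ball_le N 2
      have h3 : (((N + 2).choose 2 : ℕ) : ℝ) = ((N : ℝ) + 2) * (N + 1) / 2 := by
        rw [Nat.cast_choose_two]
        push_cast
        ring
      rw [← h3]
      exact_mod_cast h2
    have hW : ((2 ^ (2 * g) * 2 ^ y * 2 ^ (2 * g + y - 1) : ℕ) : ℝ) = M ^ 2 / 2 := by
      push_cast
      rw [← hM]
      have : (2 : ℝ) ^ (2 * g + y - 1) = M / 2 := by
        rw [hM, eq_div_iff (by norm_num), ← pow_succ, ← pow_add]
        congr 1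
        omega
      rw [this]
      ring
    have h4 : (Nat.card (hammingBall N 2) : ℝ≥0∞) /
        ((2 ^ (2 * g) * 2 ^ y * 2 ^ (2 * g + y - 1) : ℕ) : ℝ≥0∞) =
        ENNReal.ofReal ((Nat.card (hammingBall N 2) : ℝ) /
          ((2 ^ (2 * g) * 2 ^ y * 2 ^ (2 * g + y - 1) : ℕ) : ℝ)) := by
      rw [ENNReal.ofReal_div_of_pos (by rw [hW]; positivity), ENNReal.ofReal_natCast,
        ENNReal.ofReal_natCast]
    rw [h4]
    apply ENNReal.ofReal_le_ofReal
    rw [hW, div_le_iff₀ (by positivity)]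
    have hN0 : (0 : ℝ) ≤ N := Nat.cast_nonneg N
    have h5 : (N : ℝ) + 2 ≤ M * (1 + 4 / G) := by
      have h6 : 2 ≤ M * (2 / G) := by
        have h7 : G * (2 / G) = 2 := by field_simp
        have h8 : G ≤ M := by nlinarith
        have h9 : 0 < 2 / G := by positivity
        nlinarith
      have h10 : M * (1 + 4 / G) = M * (1 + 2 / G) + M * (2 / G) := by ring
      rw [h10]
      linarith
    have h6 : ((N : ℝ) + 2) * (N + 1) ≤ (M * (1 + 4 / G)) * (M * (1 + 4 / G)) :=
      mul_le_mul h5 (by linarith) (by positivity) (by positivity)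
    calc (Nat.card (hammingBall N 2) : ℝ) ≤ ((N : ℝ) + 2) * (N + 1) / 2 := hball
      _ ≤ (M * (1 + 4 / G)) * (M * (1 + 4 / G)) / 2 := by linarith
      _ = (1 + 4 / G) ^ 2 * (M ^ 2 / 2) := by ring

theorem f_two_le : f 2 ≤ 1 := by
  apply ENNReal.le_of_forall_pos_le_add
  intro ε hε _
  unfold f
  apply Filter.liminf_le_of_frequently_le'
  rw [Filter.frequently_atTop]
  intro a
  have hε' : (0 : ℝ) < ε := hε
  set i := a + ⌈24 / (ε : ℝ)⌉₊ with hi
  obtain ⟨N, hN, hd⟩ := exists_cover i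
  have hii : i ≤ 2 ^ 2 ^ i := by
    have h1 : i < 2 ^ i := Nat.lt_two_pow_self
    have h2 : 2 ^ i < 2 ^ 2 ^ i := Nat.lt_two_pow_self
    omega
  refine ⟨N, by omega, hd.trans ?_⟩
  rw [← ENNReal.ofReal_coe_nnreal, ← ENNReal.ofReal_one, ← ENNReal.ofReal_add (by norm_num)
    (NNReal.coe_nonneg ε)]
  apply ENNReal.ofReal_le_ofReal
  set G : ℝ := 2 ^ 2 ^ i with hG
  have hG1 : (1 : ℝ) ≤ G := one_le_pow₀ (by norm_num)
  have hGi : 24 / (ε : ℝ) ≤ G := by
    have h1 := Nat.le_ceil (24 / (ε : ℝ))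
    have h2 : ((⌈24 / (ε : ℝ)⌉₊ : ℕ) : ℝ) ≤ ((2 ^ 2 ^ i : ℕ) : ℝ) := by
      have : ⌈24 / (ε : ℝ)⌉₊ ≤ 2 ^ 2 ^ i := by omega
      exact_mod_cast this
    push_cast at h2
    linarith
  have h3 : 24 / G ≤ ε := by
    rw [div_le_iff₀ (by linarith)]
    rw [div_le_iff₀ hε'] at hGi
    linarith
  have h4 : 1 / G ≤ 1 := by
    rw [div_le_one (by linarith)]
    exact hG1
  have h5 : 0 < 1 / G := by positivity
  have h6 : (1 + 4 / G) ^ 2 = 1 + 8 * (1 / G) + 16 * (1 / G) ^ 2 := by ring
  have h7 : 24 / G = 24 * (1 / G) := by ring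
  rw [h6]
  rw [h7] at h3
  nlinarith

theorem one_le_f (r : ℕ) : 1 ≤ f r :=
  le_liminf_of_le (by isBoundedDefault) (Eventually.of_forall fun n => one_le_minDensity n r)

theorem f_two : f 2 = 1 := le_antisymm f_two_le (one_le_f 2)

end Pool.Agent.MP7fa5ba
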