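import Mathlib
import Pool.Agent.Work.MP_7fa5ba_co.Base

/-!
Blow-up of a system of columns with classes: `W` becomes `W × F × F`, the column `c i` becomes the
columns `(c i, x • ν (lab i))`, `x ∈ F`, where the classes are indexed by the projective line over `F`.
The new system has the same density and `|F|^2 + 1` classes.
-/

set_option autoImplicit false

namespace Pool.Agent.Work.MP_7fa5ba_co

open Finset

/-- a system of `N` columns in a space of dimension `k`, divided in `2^m + 1` nonempty classes, such that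
every nonzero vector is a sum of two columns from different classes -/
def Good (k m N : ℕ) : Prop :=
  ∃ (W : Type) (_ : AddCommGroup W) (_ : Module (ZMod 2) W) (_ : Fintype W)
    (ι : Type) (_ : Fintype ι) (L : Type) (_ : Fintype L) (c : ι → W) (lab : ι → L),
    Fintype.card W = 2 ^ k ∧ Fintype.card ι = N ∧ Fintype.card L = 2 ^ m + 1 ∧
    Function.Surjective lab ∧ ∀ u : W, u ≠ 0 → ∃ i j, lab i ≠ lab j ∧ c i + c j = u

theorem good_base : Good 10 4 51 := by
  refine ⟨Fin 10 → ZMod 2, inferInstance, inferInstance, inferInstance, Fin 51, inferInstance,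
    Fin 17, inferInstance, fun i => dec (colN.getD i 0),
    fun i => ⟨labN.getD i 0, lab_lt i i.isLt⟩, ?_, by simp, by simp, ?_, ?_⟩
  · simp [ZMod.card]
  · intro l
    obtain ⟨i, hi, hl⟩ := lab_surj l l.isLt
    exact ⟨⟨i, hi⟩, Fin.ext hl⟩
  · intro u hu
    obtain ⟨a, h1, h2, ha⟩ := dec_surj u hu
    obtain ⟨i, j, hi, hj, hx, hl⟩ := exists_pair a h1 h2
    refine ⟨⟨i, hi⟩, ⟨j, hj⟩, ?_, ?_⟩
    · intro h
      exact hl (Fin.ext_iff.1 h)
    · rw [← dec_xor, hx, ha]

section
variable {F : Type} [Field F]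

/-- direction of a point of the projective line -/
def nu : Option F → F × F
  | none => (0, 1)
  | some β => (1, β)

lemma nu_solve {β γ : Option F} (h : β ≠ γ) (v : F × F) :
    ∃ x y : F, (x * (nu β).1 + y * (nu γ).1, x * (nu β).2 + y * (nu γ).2) = v := by
  obtain ⟨a, b⟩ := v
  cases β with
  | none =>
    cases γ with
    | none => exact absurd rfl h
    | some γ =>
      refine ⟨b - a * γ, a, ?_⟩
      simp only [nu, mul_zero, mul_one, zero_add, Prod.mk.injEq, true_and]
      ring
  | some β =>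
    cases γ with
    | none =>
      refine ⟨a, b - a * β, ?_⟩
      simp only [nu, mul_zero, mul_one, add_zero, Prod.mk.injEq, true_and]
      ring
    | some γ =>
      have hne : β - γ ≠ 0 := sub_ne_zero.2 fun h2 => h (by rw [h2])
      refine ⟨(b - a * γ) / (β - γ), a - (b - a * γ) / (β - γ), ?_⟩
      simp only [nu, mul_one, Prod.mk.injEq]
      refine ⟨by ring, ?_⟩
      field_simp
      ring

lemma nu_line (v : F × F) (hv : v ≠ 0) : ∃ (β : Option F) (z : F), z ≠ 0 ∧
    (z * (nu β).1, z * (nu β).2) = v := by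
  obtain ⟨a, b⟩ := v
  by_cases ha : a = 0
  · refine ⟨none, b, ?_, ?_⟩
    · rintro rfl
      exact hv (by rw [ha]; rfl)
    · simp [nu, ha]
  · refine ⟨some (b / a), a, ha, ?_⟩
    simp only [nu, mul_one, Prod.mk.injEq, true_and]
    field_simp

variable [Fintype F] [DecidableEq F]

/-- the removed labels -/
def RR (F : Type) [Field F] [Fintype F] [DecidableEq F] : Finset (Option F × F) :=
  (univ.erase (0 : F)).image fun β => (some β, (1 : F))

lemma card_RR : (RR F).card = Fintype.card F - 1 := by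
  unfold RR
  rw [card_image_of_injective, card_erase_of_mem (mem_univ _), card_univ]
  intro a b h
  simpa using h

lemma mem_RR {p : Option F × F} : p ∈ RR F ↔ ∃ β : F, β ≠ 0 ∧ p = (some β, 1) := by
  unfold RR
  rw [mem_image]
  constructor
  · rintro ⟨β, h1, h2⟩
    exact ⟨β, (mem_erase.1 h1).1, h2.symm⟩
  · rintro ⟨β, h1, h2⟩
    exact ⟨β, mem_erase.2 ⟨h1, mem_univ _⟩, h2.symm⟩

/-- the merging map -/
def mg (p : Option F × F) : ↥((RR F)ᶜ) :=
  if h : p ∈ RR F then ⟨(p.1, 0), by
    rw [mem_compl, mem_RR]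
    rintro ⟨β, _, h2⟩
    exact zero_ne_one (Prod.ext_iff.1 h2).2⟩
  else ⟨p, by rw [mem_compl]; exact h⟩

lemma mg_surj (q : ↥((RR F)ᶜ)) : mg (q : Option F × F) = q := by
  unfold mg
  have h := q.2
  rw [mem_compl] at h
  rw [dif_neg h]

lemma mg_eq {p p' : Option F × F} (h : mg p = mg p') : p.1 = p'.1 ∧
    (p.2 = p'.2 ∨ (p.2 = 0 ∧ p'.2 = 1) ∨ (p.2 = 1 ∧ p'.2 = 0)) := by
  have key : ∀ {p : Option F × F}, p ∈ RR F → p.2 = 1 := by
    intro p hp
    obtain ⟨β, _, h2⟩ := mem_RR.1 hp
    rw [h2]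
  unfold mg at h
  by_cases h1 : p ∈ RR F <;> by_cases h2 : p' ∈ RR F
  · rw [dif_pos h1, dif_pos h2] at h
    have h3 := Prod.ext_iff.1 (Subtype.ext_iff.1 h)
    exact ⟨h3.1, Or.inl (by rw [key h1, key h2])⟩
  · rw [dif_pos h1, dif_neg h2] at h
    have h3 := Prod.ext_iff.1 (Subtype.ext_iff.1 h)
    exact ⟨h3.1, Or.inr (Or.inr ⟨key h1, h3.2.symm⟩)⟩
  · rw [dif_neg h1, dif_pos h2] at h
    have h3 := Prod.ext_iff.1 (Subtype.ext_iff.1 h)
    exact ⟨h3.1, Or.inr (Or.inl ⟨h3.2, key h2⟩)⟩
  · rw [dif_neg h1, dif_neg h2] at h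
    have h3 := Prod.ext_iff.1 (Subtype.ext_iff.1 h)
    exact ⟨h3.1, Or.inl h3.2⟩

end

theorem good_step {k m N : ℕ} (hm : 2 ≤ m) (h : Good k m N) : Good (k + 2 * m) (2 * m) (N * 2 ^ m) := by
  classical
  obtain ⟨W, i1, i2, i3, ι, i4, L, i5, c, lab, hW, hι, hL, hs, hc⟩ := h
  have : Fintype (GaloisField 2 m) := Fintype.ofFinite _
  have hF : Fintype.card (GaloisField 2 m) = 2 ^ m := by
    rw [← Nat.card_eq_fintype_card, GaloisField.card 2 m (by omega)]
  obtain ⟨e⟩ : Nonempty (L ≃ Option (GaloisField 2 m)) := by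
    rw [← Fintype.card_eq, hL, Fintype.card_option, hF]
  have hpos : 1 ≤ 2 ^ m := Nat.one_le_two_pow
  have h4 : 4 ≤ 2 ^ m := by
    calc 4 = 2 ^ 2 := by norm_num
      _ ≤ 2 ^ m := Nat.pow_le_pow_right (by norm_num) hm
  refine ⟨W × (GaloisField 2 m × GaloisField 2 m), inferInstance, inferInstance, inferInstance,
    ι × GaloisField 2 m, inferInstance, ↥((RR (GaloisField 2 m))ᶜ), inferInstance,
    fun p => (c p.1, (p.2 * (nu (e (lab p.1))).1, p.2 * (nu (e (lab p.1))).2)),
    fun p => mg (e (lab p.1), p.2), ?_, ?_, ?_, ?_, ?_⟩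
  · rw [Fintype.card_prod, Fintype.card_prod, hW, hF, pow_add, two_mul, pow_add]
  · rw [Fintype.card_prod, hι, hF]
  · rw [Fintype.card_coe, card_compl, card_RR, Fintype.card_prod, Fintype.card_option, hF]
    have : 2 ^ (2 * m) = 2 ^ m * 2 ^ m := by rw [two_mul, pow_add]
    rw [this]
    have h5 : (2 ^ m + 1) * 2 ^ m = 2 ^ m * 2 ^ m + 1 + (2 ^ m - 1) := by
      obtain ⟨r, hr⟩ : ∃ r, 2 ^ m = r + 1 := ⟨2 ^ m - 1, by omega⟩
      rw [hr]
      simp only [Nat.add_sub_cancel]
      ring
    rw [h5]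
    omega
  · intro q
    obtain ⟨i, hi⟩ := hs (e.symm (q : Option (GaloisField 2 m) × GaloisField 2 m).1)
    refine ⟨(i, (q : Option (GaloisField 2 m) × GaloisField 2 m).2), ?_⟩
    simp only [hi, Equiv.apply_symm_apply]
    exact mg_surj q
  · rintro ⟨u, v⟩ huv
    by_cases hu : u = 0
    · have hv : v ≠ 0 := by
        rintro rfl
        exact huv (by rw [hu]; rfl)
      obtain ⟨β, z, hz, hzv⟩ := nu_line v hv
      obtain ⟨i, hi⟩ := hs (e.symm β)
      obtain ⟨x, hx0, hx1⟩ : ∃ x y : GaloisField 2 m, x + y = z ∧ x ≠ y ∧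
          ¬((x = 0 ∧ y = 1) ∨ (x = 1 ∧ y = 0)) := by
        by_cases h1 : z = 1
        · obtain ⟨x, hx⟩ : ∃ x : GaloisField 2 m, x ∉ ({0, 1} : Finset (GaloisField 2 m)) := by
            by_contra hcon
            push Not at hcon
            have h6 : (univ : Finset (GaloisField 2 m)) ⊆ {0, 1} := fun x _ => hcon x
            have h7 := card_le_card h6
            rw [card_univ, hF] at h7
            have h8 : ({0, 1} : Finset (GaloisField 2 m)).card ≤ 2 := card_le_two
            omega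
          simp only [mem_insert, mem_singleton, not_or] at hx
          refine ⟨x, x + 1, ?_, ?_, ?_⟩
          · rw [h1, ← add_assoc, CharTwo.add_self_eq_zero, zero_add]
          · intro h2
            have : (1 : GaloisField 2 m) = 0 := by
              have := congrArg (fun t => t - x) h2
              simpa using this.symm
            exact one_ne_zero this
          · rintro (h2 | h2)
            · exact hx.1 h2.1
            · exact hx.2 h2.1
        · refine ⟨0, z, by rw [zero_add], hz.symm, ?_⟩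
          rintro (h2 | h2)
          · exact h1 h2.2
          · exact zero_ne_one h2.1
      obtain ⟨hx1, hx2, hx3⟩ := hx1
      refine ⟨(i, x), (i, hx0), ?_, ?_⟩
      · intro h2
        have h3 := (mg_eq h2).2
        simp only at h3
        rcases h3 with h3 | h3
        · exact hx2 h3
        · exact hx3 h3
      · have hcc : c i + c i = 0 := by
          rw [← two_nsmul, ← Nat.cast_smul_eq_nsmul (ZMod 2)]
          have : ((2 : ℕ) : ZMod 2) = 0 := by decide
          rw [this, zero_smul]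
        simp only [Prod.mk_add_mk, hi, Equiv.apply_symm_apply, ← add_mul, hx1, hcc, hzv, hu]
    · obtain ⟨i, j, hij, hsum⟩ := hc u hu
      have hne : e (lab i) ≠ e (lab j) := fun h2 => hij (e.injective h2)
      obtain ⟨x, y, hxy⟩ := nu_solve hne v
      refine ⟨(i, x), (j, y), ?_, ?_⟩
      · intro h2
        exact hne (mg_eq h2).1
      · simp only [Prod.mk_add_mk, hsum, hxy]

theorem good_seq (t : ℕ) : ∃ k m N, Good k m N ∧ 2 ≤ m ∧ N ^ 2 * 2 ^ 10 = 51 ^ 2 * 2 ^ k ∧ t < N := by
  induction t with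
  | zero => exact ⟨10, 4, 51, good_base, by norm_num, by norm_num, by norm_num⟩
  | succ t ih =>
    obtain ⟨k, m, N, hg, hm, hN, ht⟩ := ih
    refine ⟨k + 2 * m, 2 * m, N * 2 ^ m, good_step hm hg, by omega, ?_, ?_⟩
    · have e : (N * 2 ^ m) ^ 2 * 2 ^ 10 = (N ^ 2 * 2 ^ 10) * 2 ^ (2 * m) := by
        rw [mul_pow, ← pow_mul, mul_comm m 2]; ring
      rw [e, hN, pow_add]
      ring
    · have : 2 ≤ 2 ^ m := by
        calc 2 = 2 ^ 1 := by norm_num
          _ ≤ 2 ^ m := Nat.pow_le_pow_right (by norm_num) (by omega)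
      nlinarith

end Pool.Agent.Work.MP_7fa5ba_co
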