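import Mathlib
import Pool.Prelude.Def_F_7905cbea
import Pool.Agent.Work.MP_073f2d_co.Blow
import Pool.Agent.Work.MP_7fa5ba_co.Step

/-!
The least asymptotic density `f 2` of linear coverings of radius two is at most `2601 / 2048 < 1.2701`.
-/

set_option autoImplicit false

namespace Pool.Agent.Results.MP_7fa5ba_co.DensityBound

open N8b55e67f Filter Pool.Agent.Work.MP_7fa5ba_co
open scoped ENNReal

/-- the density of the linear code with the given columns -/
lemma density_le {k m N : ℕ} (h : Good k m N) (hN : N ^ 2 * 2 ^ 10 = 51 ^ 2 * 2 ^ k) (h0 : 0 < N) :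
    minDensity N 2 ≤ ENNReal.ofReal (2601 / 2048 + 8 / N) := by
  classical
  obtain ⟨W, i1, i2, i3, ι, i4, L, i5, c, lab, hW, hι, hL, hs, hc⟩ := h
  have h1 := Pool.Agent.MP073f2d.minDensity_le N 2 c (by rw [hι]) (by
    intro w
    by_cases hw : w = 0
    · exact ⟨∅, by simp, by simp [hw]⟩
    · obtain ⟨i, j, hij, hsum⟩ := hc w hw
      have hne : i ≠ j := fun h => hij (by rw [h])
      refine ⟨{i, j}, Finset.card_le_two, ?_⟩
      rw [Finset.sum_pair hne, hsum])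
  refine h1.trans ?_
  rw [Nat.card_eq_fintype_card (α := W), hW]
  have hball : (Nat.card (hammingBall N 2) : ℝ) ≤ ((N : ℝ) + 2) * (N + 1) / 2 := by
    have h2 := Pool.Agent.MP073f2d.card_ball_le N 2
    have h3 : (((N + 2).choose 2 : ℕ) : ℝ) = ((N : ℝ) + 2) * (N + 1) / 2 := by
      rw [Nat.cast_choose_two]
      push_cast
      ring
    rw [← h3]
    exact_mod_cast h2
  have hNR : (0 : ℝ) < N := by exact_mod_cast h0
  have hk : (2 : ℝ) ^ k = (N : ℝ) ^ 2 * 1024 / 2601 := by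
    have : ((N : ℝ) ^ 2 * 2 ^ 10) = 51 ^ 2 * 2 ^ k := by exact_mod_cast hN
    rw [eq_div_iff (by norm_num)]
    linarith
  have h4 : (Nat.card (hammingBall N 2) : ℝ≥0∞) / ((2 ^ k : ℕ) : ℝ≥0∞)
      = ENNReal.ofReal ((Nat.card (hammingBall N 2) : ℝ) / ((2 ^ k : ℕ) : ℝ)) := by
    rw [ENNReal.ofReal_div_of_pos (by positivity), ENNReal.ofReal_natCast, ENNReal.ofReal_natCast]
  rw [h4]
  apply ENNReal.ofReal_le_ofReal
  push_cast
  rw [hk]
  calc (Nat.card (hammingBall N 2) : ℝ) / ((N : ℝ) ^ 2 * 1024 / 2601)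
      ≤ (((N : ℝ) + 2) * (N + 1) / 2) / ((N : ℝ) ^ 2 * 1024 / 2601) :=
        div_le_div_of_nonneg_right hball (by positivity)
    _ = 2601 / 2048 * (1 + 3 / N + 2 / (N : ℝ) ^ 2) := by field_simp; ring
    _ ≤ 2601 / 2048 + 8 / N := by
        have h5 : (1 : ℝ) / (N : ℝ) ^ 2 ≤ 1 / N := by
          have h6 : (1 : ℝ) ≤ N := by exact_mod_cast h0
          rw [div_le_div_iff₀ (by positivity) hNR]
          nlinarith
        have h7 : 2 / (N : ℝ) ^ 2 = 2 * (1 / (N : ℝ) ^ 2) := by ring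
        have h8 : 3 / (N : ℝ) = 3 * (1 / N) := by ring
        have h9 : 8 / (N : ℝ) = 8 * (1 / N) := by ring
        have h10 : (0 : ℝ) < 1 / N := by positivity
        rw [h7, h8, h9]
        nlinarith

/-- `f(2) ≤ 2601/2048 = 1.27001953125` -/
theorem result : f 2 ≤ 2601 / 2048 := by
  have e : (2601 / 2048 : ℝ≥0∞) = ENNReal.ofReal (2601 / 2048) := by
    rw [ENNReal.ofReal_div_of_pos (by norm_num)]
    norm_num
  rw [e]
  apply ENNReal.le_of_forall_pos_le_add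
  intro ε hε _
  unfold f
  apply Filter.liminf_le_of_frequently_le'
  rw [Filter.frequently_atTop]
  intro a
  obtain ⟨k, m, N, hg, hm, hN, ht⟩ := good_seq (a + ⌈8 / (ε : ℝ)⌉₊ + 1)
  refine ⟨N, by omega, (density_le hg hN (by omega)).trans ?_⟩
  rw [← ENNReal.ofReal_coe_nnreal, ← ENNReal.ofReal_add (by norm_num) (NNReal.coe_nonneg ε)]
  apply ENNReal.ofReal_le_ofReal
  have hε' : (0 : ℝ) < ε := hε
  have hNR : 8 / (ε : ℝ) ≤ N := by
    have h1 := Nat.le_ceil (8 / (ε : ℝ))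
    have h2 : ((⌈8 / (ε : ℝ)⌉₊ : ℕ) : ℝ) ≤ N := by
      have : ⌈8 / (ε : ℝ)⌉₊ ≤ N := by omega
      exact_mod_cast this
    linarith
  have hN0 : (0 : ℝ) < N := lt_of_lt_of_le (by positivity) hNR
  have h3 : 8 / (N : ℝ) ≤ ε := by
    rw [div_le_iff₀ hN0]
    rw [div_le_iff₀ hε'] at hNR
    linarith
  linarith

end Pool.Agent.Results.MP_7fa5ba_co.DensityBound
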