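import Mathlib
import Pool.Prelude.Def_F_7905cbea
import Pool.Agent.Work.MP_073f2d_co.Blow

/-!
# Extension of additive 2-bases of `F_2^d` and upper bounds for `f 2`
-/

namespace Pool.Agent.MP7fa5ba

open Finset N8b55e67f Filter
open scoped ENNReal Pointwise

/-- `x` vectors in `F_2^d`, coloured with exactly `y` colours, such that every nonzero vector is
the sum of two of them of different colours. -/
def Lev (x y d : ℕ) : Prop :=
  ∃ (s : Fin x → (Fin d → ZMod 2)) (p : Fin x → Fin y), Function.Surjective p ∧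
    ∀ w, w ≠ 0 → ∃ a b, p a ≠ p b ∧ s a + s b = w

/-- Refining a colouring to have an intermediate number of colours. -/
lemma refine_colour {X Y : Type*} [Fintype X] [Fintype Y] (p : X → Y)
    (hp : Function.Surjective p) (T : ℕ) (h1 : Fintype.card Y ≤ T) (h2 : T ≤ Fintype.card X) :
    ∃ c : X → Fin T, Function.Surjective c ∧ ∀ a b, p a ≠ p b → c a ≠ c b := by
  classical
  set σ := Function.surjInv hp with hσ
  have hσinj : Function.Injective σ := Function.injective_surjInv hp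
  have hcard : (univ.image σ).card = Fintype.card Y := by
    rw [Finset.card_image_of_injective _ hσinj, Finset.card_univ]
  have hle : T - Fintype.card Y ≤ ((univ.image σ)ᶜ).card := by
    rw [Finset.card_compl, hcard]
    omega
  obtain ⟨Z, hZ, hZc⟩ := Finset.exists_subset_card_eq hle
  have hcard2 : Fintype.card (Y ⊕ Z) = T := by
    rw [Fintype.card_sum, Fintype.card_coe, hZc]
    omega
  set e : Y ⊕ Z ≃ Fin T := Fintype.equivFinOfCardEq hcard2 with he
  set g : X → Y ⊕ Z := fun x => if h : x ∈ Z then Sum.inr ⟨x, h⟩ else Sum.inl (p x) with hg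
  refine ⟨fun x => e (g x), ?_, ?_⟩
  · apply e.surjective.comp
    rintro (y | ⟨z, hz⟩)
    · refine ⟨σ y, ?_⟩
      have hnot : σ y ∉ Z := by
        intro hmem
        have := hZ hmem
        rw [Finset.mem_compl] at this
        exact this (Finset.mem_image_of_mem _ (Finset.mem_univ _))
      simp only [hg, dif_neg hnot]
      rw [hσ, Function.surjInv_eq hp]
    · exact ⟨z, by simp only [hg, dif_pos hz]⟩
  · intro a b hab hcab
    have h3 : g a = g b := e.injective hcab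
    apply hab
    simp only [hg] at h3
    by_cases ha : a ∈ Z <;> by_cases hb : b ∈ Z
    · rw [dif_pos ha, dif_pos hb] at h3
      have := congrArg Subtype.val (Sum.inr.inj h3)
      simp only at this
      rw [this]
    · rw [dif_pos ha, dif_neg hb] at h3
      exact absurd h3 (by simp)
    · rw [dif_neg ha, dif_pos hb] at h3
      exact absurd h3 (by simp)
    · rw [dif_neg ha, dif_neg hb] at h3
      exact Sum.inl.inj h3

/-- direction vectors of the lines through the origin in `F²` -/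
def dirv {F : Type*} [Field F] : Option F → F × F
  | none => (0, 1)
  | some b => (1, b)

lemma dirv_solve {F : Type*} [Field F] (b c : Option F) (h : b ≠ c) (z : F × F) :
    ∃ x y : F, x • dirv b + y • dirv c = z := by
  obtain ⟨z1, z2⟩ := z
  rcases b with _ | b <;> rcases c with _ | c
  · exact absurd rfl h
  · refine ⟨z2 - z1 * c, z1, ?_⟩
    simp [dirv]
  · refine ⟨z1, z2 - z1 * b, ?_⟩
    simp [dirv]
  · have hbc : b - c ≠ 0 := by
      intro h0
      apply h
      rw [sub_eq_zero.1 h0]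
    refine ⟨(z2 - z1 * c) / (b - c), z1 - (z2 - z1 * c) / (b - c), ?_⟩
    ext
    · simp [dirv]
    · simp only [dirv, Prod.smul_mk, smul_eq_mul, mul_one, Prod.mk_add_mk]
      field_simp
      ring

lemma dirv_cover {F : Type*} [Field F] (z : F × F) (hz : z ≠ 0) :
    ∃ (b : Option F) (d : F), d ≠ 0 ∧ z = d • dirv b := by
  obtain ⟨z1, z2⟩ := z
  by_cases h1 : z1 = 0
  · refine ⟨none, z2, ?_, by simp [dirv, h1]⟩
    intro h2
    exact hz (by rw [h1, h2]; rfl)
  · refine ⟨some (z2 / z1), z1, h1, ?_⟩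
    simp only [dirv, Prod.smul_mk, smul_eq_mul, mul_one]
    rw [mul_div_cancel₀ _ h1]

/-- The extension step. -/
theorem Lev.step {x y d k : ℕ} (h : Lev x y d) (hk : k ≠ 0) (hy : y ≤ 2 ^ k + 1)
    (hx : 2 ^ k + 1 ≤ x) : Lev (x * 2 ^ k) (2 * x) (d + 2 * k) := by
  classical
  obtain ⟨s, p, hp, hs⟩ := h
  obtain ⟨c, hc, hpc⟩ := refine_colour p hp (2 ^ k + 1) (by simpa using hy) (by simpa using hx)
  have : Fintype (GaloisField 2 k) := Fintype.ofFinite _
  set F := GaloisField 2 k with hFdef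
  have hF : Fintype.card F = 2 ^ k := by
    rw [← Nat.card_eq_fintype_card, hFdef, GaloisField.card 2 k hk]
  have hOF : Fintype.card (Option F) = 2 ^ k + 1 := by rw [Fintype.card_option, hF]
  set e : Option F ≃ Fin (2 ^ k + 1) := Fintype.equivFinOfCardEq hOF with he
  set β : Fin x → Option F := fun i => e.symm (c i) with hβ
  have hβs : Function.Surjective β := e.symm.surjective.comp hc
  have hβp : ∀ a b, p a ≠ p b → β a ≠ β b := fun a b hab hh => hpc a b hab (e.symm.injective hh)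
  -- the new vectors
  set S : Fin x × F → (Fin d → ZMod 2) × (F × F) := fun a => (s a.1, a.2 • dirv (β a.1)) with hS
  set P : Fin x × F → Fin x × Bool := fun a => (a.1, decide (a.2 = 0)) with hP
  have hadd : ∀ v : Fin d → ZMod 2, v + v = 0 := fun v => Pool.Agent.MP073f2d.add_self_two v
  have hcov : ∀ w, w ≠ 0 → ∃ a b, P a ≠ P b ∧ S a + S b = w := by
    rintro ⟨w, z⟩ hwz
    by_cases hw : w = 0
    · have hz : z ≠ 0 := by
        intro h0
        exact hwz (by rw [hw, h0]; rfl)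
      obtain ⟨b, t, ht, hzt⟩ := dirv_cover z hz
      obtain ⟨i, hi⟩ := hβs b
      refine ⟨(i, 0), (i, t), ?_, ?_⟩
      · simp [hP, ht]
      · simp only [hS, hi, zero_smul, Prod.mk_add_mk, hadd, zero_add, hw, hzt]
    · obtain ⟨a, b, hab, hsum⟩ := hs w hw
      obtain ⟨u, v, huv⟩ := dirv_solve (β a) (β b) (hβp a b hab) z
      refine ⟨(a, u), (b, v), ?_, ?_⟩
      · have : a ≠ b := fun h0 => hab (by rw [h0])
        simp [hP, this]
      · simp only [hS, Prod.mk_add_mk, hsum, huv]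
  have hPs : Function.Surjective P := by
    rintro ⟨i, b⟩
    cases b
    · exact ⟨(i, 1), by simp [hP]⟩
    · exact ⟨(i, 0), by simp [hP]⟩
  -- transport
  have hcardX : Fintype.card (Fin x × F) = x * 2 ^ k := by
    rw [Fintype.card_prod, Fintype.card_fin, hF]
  have hcardY : Fintype.card (Fin x × Bool) = 2 * x := by
    rw [Fintype.card_prod, Fintype.card_fin, Fintype.card_bool, mul_comm]
  have hfr : Module.finrank (ZMod 2) ((Fin d → ZMod 2) × (F × F))
      = Module.finrank (ZMod 2) (Fin (d + 2 * k) → ZMod 2) := by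
    have hfF : Module.finrank (ZMod 2) F = k := GaloisField.finrank 2 hk
    rw [Module.finrank_prod, Module.finrank_prod, Module.finrank_fin_fun, Module.finrank_fin_fun,
      hfF]
    omega
  set φ := LinearEquiv.ofFinrankEq _ _ hfr with hφ
  set eX : Fin x × F ≃ Fin (x * 2 ^ k) := Fintype.equivFinOfCardEq hcardX with heX
  set eY : Fin x × Bool ≃ Fin (2 * x) := Fintype.equivFinOfCardEq hcardY with heY
  refine ⟨fun i => φ (S (eX.symm i)), fun i => eY (P (eX.symm i)), ?_, ?_⟩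
  · exact eY.surjective.comp (hPs.comp eX.symm.surjective)
  · intro w hw
    have hw' : φ.symm w ≠ 0 := by
      intro h0
      apply hw
      rw [← φ.apply_symm_apply w, h0, map_zero]
    obtain ⟨a, b, hab, hsum⟩ := hcov _ hw'
    refine ⟨eX a, eX b, ?_, ?_⟩
    · simp only [Equiv.symm_apply_apply]
      exact fun h0 => hab (eY.injective h0)
    · simp only [Equiv.symm_apply_apply]
      rw [← map_add, hsum, LinearEquiv.apply_symm_apply]

/-- A good level can be extended to an arbitrarily long one with the same ratio. -/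
theorem Lev.exists_large {x y d k : ℕ} (h : Lev x y d) (hk : 2 ≤ k) (hy : y ≤ 2 ^ k + 1)
    (hx : 2 ^ k + 1 ≤ x) (t : ℕ) :
    ∃ X Y D : ℕ, t ≤ X ∧ Lev X Y D ∧ 2 * Y ≤ X ∧ 3 ≤ Y ∧ X ^ 2 * 2 ^ d = x ^ 2 * 2 ^ D := by
  have h4 : 4 ≤ 2 ^ k := by
    calc 4 = 2 ^ 2 := by norm_num
      _ ≤ 2 ^ k := Nat.pow_le_pow_right (by norm_num) hk
  induction t with
  | zero =>
    refine ⟨x * 2 ^ k, 2 * x, d + 2 * k, Nat.zero_le _, h.step (by omega) hy hx, by nlinarith,
      by omega, ?_⟩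
    rw [pow_add, pow_mul', mul_pow]
    ring
  | succ t ih =>
    obtain ⟨X, Y, D, htX, hL, h2Y, h3Y, hratio⟩ := ih
    set k' := Nat.clog 2 Y with hk'
    have hle : Y ≤ 2 ^ k' := Nat.le_pow_clog (by norm_num) Y
    have hlt : 2 ^ (k' - 1) < Y := Nat.pow_pred_clog_lt_self (by norm_num) (by omega)
    have hk'2 : 2 ≤ k' := by
      by_contra hcon
      have : 2 ^ k' ≤ 2 ^ 1 := Nat.pow_le_pow_right (by norm_num) (by omega)
      omega
    have hpow : 2 ^ k' = 2 * 2 ^ (k' - 1) := by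
      rw [← pow_succ']; congr 1; omega
    have h4' : 4 ≤ 2 ^ k' := by
      calc 4 = 2 ^ 2 := by norm_num
        _ ≤ 2 ^ k' := Nat.pow_le_pow_right (by norm_num) hk'2
    refine ⟨X * 2 ^ k', 2 * X, D + 2 * k', by nlinarith,
      hL.step (by omega) (by omega) (by omega), by nlinarith, by omega, ?_⟩
    rw [pow_add, pow_mul', mul_pow]
    calc X ^ 2 * (2 ^ k') ^ 2 * 2 ^ d = (X ^ 2 * 2 ^ d) * (2 ^ k') ^ 2 := by ring
      _ = (x ^ 2 * 2 ^ D) * (2 ^ k') ^ 2 := by rw [hratio]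
      _ = _ := by ring

/-- A level gives a covering subspace. -/
theorem Lev.minDensity_le {x y d : ℕ} (h : Lev x y d) :
    minDensity x 2 ≤ ENNReal.ofReal ((((x : ℝ) + 2) ^ 2 / 2) / 2 ^ d) := by
  classical
  obtain ⟨s, p, -, hs⟩ := h
  have h1 := Pool.Agent.MP073f2d.minDensity_le (W := Fin d → ZMod 2) x 2 s (by simp) (by
    intro w
    by_cases hw : w = 0
    · exact ⟨∅, by simp, by simp [hw]⟩
    · obtain ⟨a, b, hab, hsum⟩ := hs w hw
      have hne : a ≠ b := fun h0 => hab (by rw [h0])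
      exact ⟨{a, b}, by rw [Finset.card_pair hne], by rw [Finset.sum_pair hne, hsum]⟩)
  refine h1.trans ?_
  have hcard : Nat.card (Fin d → ZMod 2) = 2 ^ d := by
    rw [Nat.card_eq_fintype_card]; simp [ZMod.card]
  rw [hcard]
  have hball : (Nat.card (hammingBall x 2) : ℝ) ≤ ((x : ℝ) + 2) ^ 2 / 2 := by
    calc (Nat.card (hammingBall x 2) : ℝ) ≤ ((x + 2).choose 2 : ℝ) := by
          exact_mod_cast Pool.Agent.MP073f2d.card_ball_le x 2
      _ ≤ ((x + 2 : ℕ) : ℝ) ^ 2 / (Nat.factorial 2 : ℝ) := Nat.choose_le_pow_div 2 (x + 2)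
      _ = _ := by push_cast; norm_num
  have h2 : (Nat.card (hammingBall x 2) : ℝ≥0∞) / ((2 ^ d : ℕ) : ℝ≥0∞)
      = ENNReal.ofReal ((Nat.card (hammingBall x 2) : ℝ) / ((2 ^ d : ℕ) : ℝ)) := by
    rw [ENNReal.ofReal_div_of_pos (by positivity), ENNReal.ofReal_natCast, ENNReal.ofReal_natCast]
  rw [h2]
  apply ENNReal.ofReal_le_ofReal
  push_cast
  exact div_le_div_of_nonneg_right hball (by positivity)

/-- **Upper bound for `f 2` from one finite configuration.** -/
theorem f_two_le {x y d k : ℕ} (h : Lev x y d) (hk : 2 ≤ k) (hy : y ≤ 2 ^ k + 1)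
    (hx : 2 ^ k + 1 ≤ x) : f 2 ≤ ENNReal.ofReal ((x : ℝ) ^ 2 / 2 ^ (d + 1)) := by
  have h2k : 0 < 2 ^ k := Nat.two_pow_pos k
  have hx0 : (0 : ℝ) < x := by exact_mod_cast (by omega : 0 < x)
  apply ENNReal.le_of_forall_pos_le_add
  intro ε hε _
  have hε' : (0 : ℝ) < ε := by exact_mod_cast hε
  have hR : (0 : ℝ) < (x : ℝ) ^ 2 / 2 ^ (d + 1) := by positivity
  -- choose X large
  obtain ⟨M, hM⟩ := exists_nat_gt (8 * ((x : ℝ) ^ 2 / 2 ^ (d + 1)) / ε)
  have hfreq : ∃ᶠ n in atTop, minDensity n 2 ≤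
      ENNReal.ofReal ((x : ℝ) ^ 2 / 2 ^ (d + 1)) + (ε : ℝ≥0∞) := by
    rw [Filter.frequently_atTop]
    intro L
    obtain ⟨X, Y, D, hX, hL, -, h3, hratio⟩ := h.exists_large hk hy hx (L + M + 1)
    refine ⟨X, by omega, hL.minDensity_le.trans ?_⟩
    rw [← ENNReal.ofReal_coe_nnreal, ← ENNReal.ofReal_add hR.le hε'.le]
    apply ENNReal.ofReal_le_ofReal
    have hX0 : (0 : ℝ) < X := by exact_mod_cast (by omega : 0 < X)
    have hX1 : (1 : ℝ) ≤ X := by exact_mod_cast (by omega : 1 ≤ X)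
    have hXM : (M : ℝ) ≤ X := by exact_mod_cast (by omega : M ≤ X)
    have hratio' : (X : ℝ) ^ 2 * 2 ^ d = (x : ℝ) ^ 2 * 2 ^ D := by exact_mod_cast hratio
    have hR2 : (x : ℝ) ^ 2 / 2 ^ (d + 1) = (X : ℝ) ^ 2 / 2 ^ (D + 1) := by
      have e1 : (2 : ℝ) ^ (d + 1) = 2 ^ d * 2 := pow_succ _ _
      have e2 : (2 : ℝ) ^ (D + 1) = 2 ^ D * 2 := pow_succ _ _
      rw [div_eq_div_iff (by positivity) (by positivity), e1, e2]
      linarith
    have hMX : 8 * ((x : ℝ) ^ 2 / 2 ^ (d + 1)) ≤ ε * X := by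
      have h5 := (hM.le).trans hXM
      rw [div_le_iff₀ hε'] at h5
      linarith
    rw [hR2] at hMX ⊢
    have h6 : (((X : ℝ) + 2) ^ 2 / 2) / 2 ^ D = ((X : ℝ) + 2) ^ 2 / 2 ^ (D + 1) := by
      have e2 : (2 : ℝ) ^ (D + 1) = 2 * 2 ^ D := pow_succ' _ _
      rw [e2, div_div]
    rw [h6]
    have h7 : ((X : ℝ) + 2) ^ 2 ≤ X ^ 2 + 8 * X := by nlinarith
    have h8 : 8 * (X : ℝ) / 2 ^ (D + 1) ≤ ε := by
      have h9 : 8 * ((X : ℝ) ^ 2 / 2 ^ (D + 1)) = (8 * (X : ℝ) / 2 ^ (D + 1)) * X := by ring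
      rw [h9] at hMX
      exact le_of_mul_le_mul_right hMX hX0
    calc ((X : ℝ) + 2) ^ 2 / 2 ^ (D + 1) ≤ (X ^ 2 + 8 * X) / 2 ^ (D + 1) :=
          div_le_div_of_nonneg_right h7 (by positivity)
      _ = X ^ 2 / 2 ^ (D + 1) + 8 * X / 2 ^ (D + 1) := by rw [add_div]
      _ ≤ _ := by linarith
  unfold f
  exact Filter.liminf_le_of_frequently_le' hfreq

end Pool.Agent.MP7fa5ba
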