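import Pool.Agent.Work.MP_7fa5ba_co.TowerSys

/-!
# MP_7fa5ba_co: the tower of subfields and the exponents
-/

set_option autoImplicit false

namespace Pool.Agent.MP7fa5ba

open Polynomial

section fields

variable {E : Type} [Field E] [Algebra (ZMod 2) E] [CharP E 2]

/-- the subfield with `2 ^ s` elements, as a subspace -/
def fixS (E : Type) [Field E] [Algebra (ZMod 2) E] [CharP E 2] (s : ℕ) :
    Submodule (ZMod 2) E where
  carrier := {a | a ^ 2 ^ s = a}
  add_mem' := by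
    intro a b ha hb
    have ha' : a ^ 2 ^ s = a := ha
    have hb' : b ^ 2 ^ s = b := hb
    show (a + b) ^ 2 ^ s = a + b
    rw [frob, ha', hb']
  zero_mem' := by
    show (0 : E) ^ 2 ^ s = 0
    exact zero_pow (by positivity)
  smul_mem' := by
    intro c a ha
    have ha' : a ^ 2 ^ s = a := ha
    show (c • a) ^ 2 ^ s = c • a
    rw [_root_.smul_pow, ha', ZMod.pow_card_pow]

theorem mem_fixS (s : ℕ) (a : E) : a ∈ fixS E s ↔ a ^ 2 ^ s = a := Iff.rfl

theorem card_fixS_le [Finite E] (s : ℕ) (hs : 0 < s) : Nat.card (fixS E s) ≤ 2 ^ s := by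
  classical
  have h2 : 1 < 2 ^ s := Nat.one_lt_two_pow hs.ne'
  set P : E[X] := X ^ 2 ^ s - X with hP
  have hP0 : P ≠ 0 := FiniteField.X_pow_card_sub_X_ne_zero E h2
  have hsub : ((fixS E s : Set E)) ⊆ (P.roots.toFinset : Set E) := by
    intro a ha
    rw [Finset.mem_coe, Multiset.mem_toFinset, mem_roots hP0]
    have : a ^ 2 ^ s = a := ha
    simp [hP, this]
  calc Nat.card (fixS E s) = (fixS E s : Set E).ncard := rfl
    _ ≤ (P.roots.toFinset : Set E).ncard := Set.ncard_le_ncard hsub (Finset.finite_toSet _)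
    _ = P.roots.toFinset.card := Set.ncard_coe_finset _
    _ ≤ Multiset.card P.roots := Multiset.toFinset_card_le _
    _ ≤ P.natDegree := P.card_roots'
    _ = 2 ^ s := FiniteField.X_pow_card_sub_X_natDegree_eq E h2

theorem card_fixS_half [Finite E] (s : ℕ) (hs : 0 < s)
    (h : Nat.card (fixS E (2 * s)) = 2 ^ (2 * s)) : Nat.card (fixS E s) = 2 ^ s := by
  have hle := card_fixS_le (E := E) s hs
  -- the map `z ↦ z + z ^ (2 ^ s)` on the bigger subfield
  let D : fixS E (2 * s) →+ fixS E s :=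
    { toFun := fun z => ⟨z + z ^ 2 ^ s, by
        have hz : (z : E) ^ 2 ^ (2 * s) = z := z.2
        rw [mem_fixS, frob, ← pow_mul, ← pow_add, ← two_mul, hz, add_comm]⟩
      map_zero' := Subtype.ext (by
        show ((0 : E) + (0 : E) ^ 2 ^ s) = 0
        rw [zero_pow (by positivity), add_zero])
      map_add' := fun a b => Subtype.ext (by
        show ((a : E) + b + ((a : E) + b) ^ 2 ^ s) = (a : E) + (a : E) ^ 2 ^ s +
          ((b : E) + (b : E) ^ 2 ^ s)
        rw [frob]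
        ring) }
  have hker : Nat.card D.ker ≤ Nat.card (fixS E s) := by
    refine Nat.card_le_card_of_injective
      (fun z => (⟨(z : fixS E (2 * s)), ?_⟩ : fixS E s)) ?_
    · have h1 : D z = 0 := z.2
      have h2 : ((z : fixS E (2 * s)) : E) + ((z : fixS E (2 * s)) : E) ^ 2 ^ s = 0 :=
        congrArg Subtype.val h1
      exact (CharTwo.add_eq_zero.1 h2).symm
    · intro a b hab
      have := congrArg Subtype.val hab
      exact Subtype.ext (Subtype.ext this)
  have hran : Nat.card D.range ≤ Nat.card (fixS E s) :=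
    Nat.card_le_card_of_injective _ Subtype.val_injective
  have hmul : Nat.card (fixS E (2 * s)) = Nat.card D.range * Nat.card D.ker := by
    rw [← AddSubgroup.index_ker, AddSubgroup.index_mul_card]
  rw [h] at hmul
  have h1 : 2 ^ s * 2 ^ s ≤ Nat.card (fixS E s) * Nat.card (fixS E s) := by
    rw [← pow_add, ← two_mul, hmul]
    exact Nat.mul_le_mul hran hker
  have h2 : 2 ^ s ≤ Nat.card (fixS E s) := by
    by_contra hlt
    push Not at hlt
    exact absurd h1 (not_le.2 (Nat.mul_lt_mul'' hlt hlt))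
  exact le_antisymm hle h2

theorem card_fixS_tower [Finite E] {J : ℕ} (hE : Nat.card E = 2 ^ 2 ^ J) :
    ∀ d j, j + d = J → Nat.card (fixS E (2 ^ j)) = 2 ^ 2 ^ j := by
  intro d
  induction d with
  | zero =>
    intro j hj
    obtain rfl : j = J := by omega
    rw [← hE]
    have := Fintype.ofFinite E
    refine Nat.card_congr (Equiv.subtypeUnivEquiv fun a => ?_)
    show a ^ 2 ^ 2 ^ j = a
    rw [← hE, Nat.card_eq_fintype_card]
    exact FiniteField.pow_card a
  | succ d ih =>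
    intro j hj
    have h := ih (j + 1) (by omega)
    rw [pow_succ' 2 j] at h
    exact card_fixS_half _ (by positivity) h

end fields

/-! ### the exponents -/

theorem exists_cofactor (j d : ℕ) : ∃ N : ℕ, 0 < N ∧
    2 ^ 2 ^ (j + 1 + d) - 1 = (2 ^ 2 ^ (j + 1) - 1) * N ∧ (2 ^ 2 ^ j - 1).Coprime N := by
  induction d with
  | zero => exact ⟨1, one_pos, by simp, Nat.coprime_one_right _⟩
  | succ d ih =>
    obtain ⟨N, hN, h, hc⟩ := ih
    refine ⟨N * (2 ^ 2 ^ (j + 1 + d) + 1), by positivity, ?_, ?_⟩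
    · rw [← mul_assoc, ← h]
      have h1 : 2 ^ 2 ^ (j + 1 + (d + 1)) = 2 ^ 2 ^ (j + 1 + d) * 2 ^ 2 ^ (j + 1 + d) := by
        rw [← pow_add, ← two_mul, ← pow_succ']
        rfl
      rw [h1]
      have h2 : 1 ≤ 2 ^ 2 ^ (j + 1 + d) := Nat.one_le_two_pow
      obtain ⟨a, ha⟩ := Nat.exists_eq_add_of_le h2
      rw [ha]
      have : (1 + a) * (1 + a) - 1 = a * (1 + a + 1) := by
        have : (1 + a) * (1 + a) = a * (1 + a + 1) + 1 := by ring
        omega
      rw [this, Nat.add_sub_cancel_left]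
    · refine Nat.Coprime.mul_right hc ?_
      -- `2 ^ 2 ^ j - 1` divides `2 ^ 2 ^ (j + 1 + d) - 1`
      have hdvd : 2 ^ 2 ^ j - 1 ∣ 2 ^ 2 ^ (j + 1 + d) - 1 := by
        have h1 : 2 ^ (j + 1 + d) = 2 ^ j * 2 ^ (1 + d) := by rw [← pow_add]; congr 1; omega
        rw [h1, pow_mul]
        simpa using Nat.sub_dvd_pow_sub_pow (2 ^ 2 ^ j) 1 (2 ^ (1 + d))
      refine Nat.Coprime.coprime_dvd_left hdvd ?_
      have h2 : 2 ^ 2 ^ (j + 1 + d) + 1 = 2 ^ 2 ^ (j + 1 + d) - 1 + 2 := by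
        have : 1 ≤ 2 ^ 2 ^ (j + 1 + d) := Nat.one_le_two_pow
        omega
      rw [h2, Nat.coprime_self_add_right]
      have hodd : Odd (2 ^ 2 ^ (j + 1 + d) - 1) := by
        have h3 : Even (2 ^ 2 ^ (j + 1 + d)) := by
          rw [Nat.even_pow]
          exact ⟨even_two, by positivity⟩
        exact Nat.Even.sub_odd Nat.one_le_two_pow h3 odd_one
      exact (Nat.coprime_two_right).2 hodd

theorem exists_exp (j d : ℕ) : ∃ t : ℕ, 2 ^ 2 ^ (j + 1 + d) - 1 ∣
    (1 + (2 ^ 2 ^ j + t * (2 ^ (2 * 2 ^ j) - 1))) * (2 ^ 2 ^ j - 1) := by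
  obtain ⟨N, hN, h, hc⟩ := exists_cofactor j d
  have h1 : 1 ≤ 2 ^ 2 ^ j := Nat.one_le_two_pow
  obtain ⟨a, ha⟩ := Nat.exists_eq_add_of_le h1
  have hq : 2 ^ (2 * 2 ^ j) = (1 + a) * (1 + a) := by rw [two_mul, pow_add, ha]
  have hq' : 2 ^ 2 ^ (j + 1) = (1 + a) * (1 + a) := by rw [pow_succ', hq]
  have ha0 : 0 < a := by
    have : 2 ^ 1 ≤ 2 ^ 2 ^ j := Nat.pow_le_pow_right (by norm_num) Nat.one_le_two_pow
    omega
  rw [hq'] at h
  rw [ha] at hc ⊢
  rw [hq, h]
  rw [Nat.add_sub_cancel_left] at hc ⊢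
  have hsub : (1 + a) * (1 + a) - 1 = a * (a + 2) := by
    have : (1 + a) * (1 + a) = a * (a + 2) + 1 := by ring
    omega
  rw [hsub]
  obtain ⟨m, hm1, hm2⟩ := Nat.chineseRemainder hc 1 0
  have hNm : N ∣ m + a * N := by
    have : N ∣ m := (Nat.modEq_zero_iff_dvd).1 hm2
    exact dvd_add this (dvd_mul_left _ _)
  have hpos : 1 ≤ m + a * N := by
    have : 0 < a * N := Nat.mul_pos ha0 hN
    omega
  have hmod : 1 ≡ m + a * N [MOD a] := by
    refine (hm1.symm).trans ?_
    have h5 : m + a * N ≡ m + 0 [MOD a] :=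
      Nat.ModEq.add_left m ((Nat.modEq_zero_iff_dvd).2 (dvd_mul_right a N))
    simp
  obtain ⟨t, ht⟩ := (Nat.modEq_iff_dvd' hpos).1 hmod
  refine ⟨t, ?_⟩
  obtain ⟨c, hcN⟩ := hNm
  refine ⟨c, ?_⟩
  have h6 : 1 + a * t = N * c := by omega
  calc (1 + (1 + a + t * (a * (a + 2)))) * a = a * (a + 2) * (1 + a * t) := by ring
    _ = a * (a + 2) * N * c := by rw [h6]; ring

/-- the system at level `1` exists -/
theorem exists_sys {E : Type} [Field E] [Algebra (ZMod 2) E] [CharP E 2] [Finite E] {J : ℕ}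
    (hE : Nat.card E = 2 ^ 2 ^ J) : ∀ d j, j + d = J → Nonempty (Sys E (2 ^ j)) := by
  intro d
  induction d with
  | zero =>
    intro j hj
    obtain rfl : j = J := by omega
    exact Sys.init hE
  | succ d ih =>
    intro j hj
    obtain ⟨S⟩ := ih (j + 1) (by omega)
    rw [pow_succ' 2 j] at S
    obtain ⟨t, ht⟩ := exists_exp j d
    obtain ⟨T⟩ := Tap.iter S t
    refine T.finish (fixS E (2 ^ j)) (mem_fixS _) (card_fixS_tower hE (d + 1) j hj) ?_
    intro x hx
    have hcard : x ^ (2 ^ 2 ^ (j + 1 + d) - 1) = 1 := by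
      have := Fintype.ofFinite E
      have h1 := FiniteField.pow_card_sub_one_eq_one x hx
      rw [← Nat.card_eq_fintype_card, hE] at h1
      have h2 : j + 1 + d = J := by omega
      rw [h2]
      exact h1
    obtain ⟨c, hc⟩ := ht
    set e := 1 + (2 ^ 2 ^ j + t * (2 ^ (2 * 2 ^ j) - 1)) with he
    have h3 : (x ^ e) ^ (2 ^ 2 ^ j - 1) = 1 := by
      rw [← pow_mul, hc, pow_mul, hcard, one_pow]
    have h4 : 2 ^ 2 ^ j = 2 ^ 2 ^ j - 1 + 1 := by
      have : 1 ≤ 2 ^ 2 ^ j := Nat.one_le_two_pow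
      omega
    rw [h4, pow_succ, h3, one_mul]

end Pool.Agent.MP7fa5ba
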