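import Mathlib

/-!
# MP_7fa5ba_co: quadratic maps with an almost surjective polar form

`E` is a finite field of characteristic `2`. A system at level `s` is a quadratic map
`φ : E × Y → Z` with polar form `B`, `|Z| 2^s = |E| |Y|`, such that for `x ≠ 0` every
`(x', y')` in the kernel of `B (x, y)` satisfies `z ^ (2 ^ s) = z` with `z = x' / x`, and is
determined by `z`.
-/

set_option autoImplicit false

namespace Pool.Agent.MP7fa5ba

/-- the construction at level `s` -/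
structure Sys (E : Type) [Field E] (s : ℕ) where
  Y : Type
  Z : Type
  [aY : AddCommGroup Y]
  [mY : Module (ZMod 2) Y]
  [fY : Finite Y]
  [aZ : AddCommGroup Z]
  [mZ : Module (ZMod 2) Z]
  [fZ : Finite Z]
  φ : E × Y → Z
  B : E × Y → E × Y → Z
  quad : ∀ v w, φ (v + w) = φ v + φ w + B v w
  add : ∀ v w w', B v (w + w') = B v w + B v w'
  card : Nat.card Z * 2 ^ s = Nat.card E * Nat.card Y
  k1 : ∀ x y x' y', x ≠ 0 → B (x, y) (x', y') = 0 → (x' / x) ^ 2 ^ s = x' / x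
  k2 : ∀ x y y', x ≠ 0 → B (x, y) (0, y') = 0 → y' = 0

attribute [instance] Sys.aY Sys.mY Sys.fY Sys.aZ Sys.mZ Sys.fZ

variable {E : Type} [Field E] [Algebra (ZMod 2) E] [Finite E]

/-- one more auxiliary variable -/
def Sys.ext {s : ℕ} (S : Sys E s) (g : E × S.Y → E) (G : E × S.Y → E × S.Y → E)
    (hq : ∀ v w, g (v + w) = g v + g w + G v w)
    (ha : ∀ v w w', G v (w + w') = G v w + G v w') : Sys E s where
  Y := S.Y × E
  Z := S.Z × E
  φ v := (S.φ (v.1, v.2.1), v.1 * v.2.2 + g (v.1, v.2.1))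
  B v w := (S.B (v.1, v.2.1) (w.1, w.2.1),
    v.1 * w.2.2 + w.1 * v.2.2 + G (v.1, v.2.1) (w.1, w.2.1))
  quad v w := by
    have h1 := S.quad (v.1, v.2.1) (w.1, w.2.1)
    have h2 := hq (v.1, v.2.1) (w.1, w.2.1)
    rw [Prod.mk_add_mk] at h1 h2
    ext
    · exact h1
    · show (v.1 + w.1) * (v.2.2 + w.2.2) + g (v.1 + w.1, v.2.1 + w.2.1) =
        v.1 * v.2.2 + g (v.1, v.2.1) + (w.1 * w.2.2 + g (w.1, w.2.1)) +
          (v.1 * w.2.2 + w.1 * v.2.2 + G (v.1, v.2.1) (w.1, w.2.1))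
      rw [h2]
      ring
  add v w w' := by
    have h1 := S.add (v.1, v.2.1) (w.1, w.2.1) (w'.1, w'.2.1)
    have h2 := ha (v.1, v.2.1) (w.1, w.2.1) (w'.1, w'.2.1)
    rw [Prod.mk_add_mk] at h1 h2
    ext
    · exact h1
    · show v.1 * (w.2.2 + w'.2.2) + (w.1 + w'.1) * v.2.2 +
          G (v.1, v.2.1) (w.1 + w'.1, w.2.1 + w'.2.1) =
        v.1 * w.2.2 + w.1 * v.2.2 + G (v.1, v.2.1) (w.1, w.2.1) +
          (v.1 * w'.2.2 + w'.1 * v.2.2 + G (v.1, v.2.1) (w'.1, w'.2.1))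
      rw [h2]
      ring
  card := by
    rw [Nat.card_prod, Nat.card_prod]
    calc Nat.card S.Z * Nat.card E * 2 ^ s = Nat.card S.Z * 2 ^ s * Nat.card E := by ring
      _ = Nat.card E * (Nat.card S.Y * Nat.card E) := by rw [S.card]; ring
  k1 x y x' y' hx h := S.k1 x y.1 x' y'.1 hx (congrArg Prod.fst h)
  k2 x y y' hx h := by
    have h1 : y'.1 = 0 := S.k2 x y.1 y'.1 hx (congrArg Prod.fst h)
    have h2 : x * y'.2 + 0 * y.2 + G (x, y.1) (0, y'.1) = 0 := congrArg Prod.snd h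
    have h3 : G (x, y.1) (0, 0) = 0 := by
      have := ha (x, y.1) 0 0
      rw [add_zero] at this
      have h4 : G (x, y.1) 0 = 0 := by
        have h5 : G (x, y.1) 0 + 0 = G (x, y.1) 0 + G (x, y.1) 0 := by rw [add_zero]; exact this
        exact (add_left_cancel h5).symm
      exact h4
    rw [h1, h3, zero_mul, add_zero, add_zero] at h2
    have h6 : y'.2 = 0 := (mul_eq_zero.1 h2).resolve_left hx
    exact Prod.ext h1 h6

/-- a system at level `2 s` with a controlled additive function -/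
structure Tap (E : Type) [Field E] (s e : ℕ) where
  S : Sys E (2 * s)
  τ : E × S.Y → E
  τadd : ∀ v w, τ (v + w) = τ v + τ w
  tap : ∀ x y x' y', x ≠ 0 → S.B (x, y) (x', y') = 0 →
    τ (x', y') = x' / x * τ (x, y) + x ^ e * (x' / x + (x' / x) ^ 2 ^ s)

omit [Algebra (ZMod 2) E] [Finite E] in
theorem frob [CharP E 2] (s : ℕ) (a b : E) : (a + b) ^ 2 ^ s = a ^ 2 ^ s + b ^ 2 ^ s :=
  add_pow_char_pow a b 2 s

omit [Algebra (ZMod 2) E] [Finite E] in
theorem add_self' [CharP E 2] (a : E) : a + a = 0 := CharTwo.add_self_eq_zero a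

/-- the first auxiliary variable of a level -/
def Tap.start [CharP E 2] {s : ℕ} (S : Sys E (2 * s)) : Tap E s (2 ^ s) where
  S := S.ext (fun v => v.1 * v.1 ^ 2 ^ s) (fun v w => v.1 * w.1 ^ 2 ^ s + w.1 * v.1 ^ 2 ^ s)
    (fun v w => by
      show (v.1 + w.1) * (v.1 + w.1) ^ 2 ^ s = _
      rw [frob]
      ring)
    (fun v w w' => by
      show v.1 * (w.1 + w'.1) ^ 2 ^ s + (w.1 + w'.1) * v.1 ^ 2 ^ s = _
      rw [frob]
      ring)
  τ v := v.2.2
  τadd v w := rfl
  tap x y x' y' hx h := by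
    have h2 : x * y'.2 + x' * y.2 + (x * x' ^ 2 ^ s + x' * x ^ 2 ^ s) = 0 := congrArg Prod.snd h
    show y'.2 = x' / x * y.2 + x ^ 2 ^ s * (x' / x + (x' / x) ^ 2 ^ s)
    set z := x' / x with hz
    have hx' : x' = x * z := by rw [hz]; field_simp
    rw [hx', mul_pow] at h2
    have h3 : x * (y'.2 + (z * y.2 + x ^ 2 ^ s * (z + z ^ 2 ^ s))) = 0 := by
      rw [← h2]
      ring
    have h4 := (mul_eq_zero.1 h3).resolve_left hx
    exact CharTwo.add_eq_zero.1 h4

/-- one more auxiliary variable in a level -/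
def Tap.step [CharP E 2] {s e : ℕ} (T : Tap E s e) : Tap E s (e + (2 ^ (2 * s) - 1)) where
  S := T.S.ext (fun v => v.1 ^ 2 ^ (2 * s) * T.τ v)
    (fun v w => v.1 ^ 2 ^ (2 * s) * T.τ w + w.1 ^ 2 ^ (2 * s) * T.τ v)
    (fun v w => by
      show (v.1 + w.1) ^ 2 ^ (2 * s) * T.τ (v + w) = _
      rw [frob, T.τadd]
      ring)
    (fun v w w' => by
      show v.1 ^ 2 ^ (2 * s) * T.τ (w + w') + (w.1 + w'.1) ^ 2 ^ (2 * s) * T.τ v = _
      rw [frob, T.τadd]
      ring)
  τ v := v.2.2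
  τadd v w := rfl
  tap x y x' y' hx h := by
    have h1 : T.S.B (x, y.1) (x', y'.1) = 0 := congrArg Prod.fst h
    have h2 : x * y'.2 + x' * y.2 + (x ^ 2 ^ (2 * s) * T.τ (x', y'.1) +
      x' ^ 2 ^ (2 * s) * T.τ (x, y.1)) = 0 := congrArg Prod.snd h
    show y'.2 = x' / x * y.2 + x ^ (e + (2 ^ (2 * s) - 1)) * (x' / x + (x' / x) ^ 2 ^ s)
    rw [T.tap x y.1 x' y'.1 hx h1] at h2
    have hk := T.S.k1 x y.1 x' y'.1 hx h1
    set z := x' / x with hz
    have hx' : x' = x * z := by rw [hz]; field_simp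
    rw [hx', mul_pow, hk] at h2
    have hp : x ^ 2 ^ (2 * s) = x * x ^ (2 ^ (2 * s) - 1) := by
      rw [← pow_succ']
      congr 1
      have : 0 < 2 ^ (2 * s) := by positivity
      omega
    rw [hp] at h2
    have h3 : x * (y'.2 + (z * y.2 + x ^ (e + (2 ^ (2 * s) - 1)) * (z + z ^ 2 ^ s)) +
        (x ^ (2 ^ (2 * s) - 1) * z * T.τ (x, y.1) + x ^ (2 ^ (2 * s) - 1) * z * T.τ (x, y.1))) =
        0 := by
      rw [← h2, pow_add]
      ring
    rw [add_self', add_zero] at h3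
    have h4 := (mul_eq_zero.1 h3).resolve_left hx
    exact CharTwo.add_eq_zero.1 h4

/-- many auxiliary variables -/
theorem Tap.iter [CharP E 2] {s : ℕ} (S : Sys E (2 * s)) (t : ℕ) :
    Nonempty (Tap E s (2 ^ s + t * (2 ^ (2 * s) - 1))) := by
  induction t with
  | zero => exact ⟨by simpa using Tap.start S⟩
  | succ t ih =>
    obtain ⟨T⟩ := ih
    have h : 2 ^ s + (t + 1) * (2 ^ (2 * s) - 1) =
        2 ^ s + t * (2 ^ (2 * s) - 1) + (2 ^ (2 * s) - 1) := by ring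
    rw [h]
    exact ⟨T.step⟩

/-- the end of a level -/
theorem Tap.finish [CharP E 2] {s e : ℕ} (T : Tap E s e) (F : Submodule (ZMod 2) E)
    (hF : ∀ a, a ∈ F ↔ a ^ 2 ^ s = a) (hc : Nat.card F = 2 ^ s)
    (he : ∀ x : E, x ≠ 0 → (x ^ (1 + e)) ^ 2 ^ s = x ^ (1 + e)) : Nonempty (Sys E s) := by
  obtain ⟨π, hπ⟩ := F.subtype.exists_leftInverse_of_injective
    (LinearMap.ker_eq_bot.2 F.injective_subtype)
  have hπ' : ∀ a ∈ F, π a = 0 → a = 0 := by
    intro a ha h
    have h1 := LinearMap.congr_fun hπ ⟨a, ha⟩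
    have h2 : π a = ⟨a, ha⟩ := h1
    rw [h2] at h
    exact congrArg Subtype.val h
  refine ⟨{
    Y := T.S.Y
    Z := T.S.Z × F
    φ := fun v => (T.S.φ v, π (v.1 * T.τ v))
    B := fun v w => (T.S.B v w, π (v.1 * T.τ w + w.1 * T.τ v))
    quad := fun v w => ?_
    add := fun v w w' => ?_
    card := ?_
    k1 := fun x y x' y' hx h => ?_
    k2 := fun x y y' hx h => T.S.k2 x y y' hx (congrArg Prod.fst h) }⟩
  · ext1
    · exact T.S.quad v w
    · show π ((v.1 + w.1) * T.τ (v + w)) = π (v.1 * T.τ v) + π (w.1 * T.τ w) +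
        π (v.1 * T.τ w + w.1 * T.τ v)
      rw [T.τadd, ← map_add, ← map_add]
      congr 1
      ring
  · ext1
    · exact T.S.add v w w'
    · show π (v.1 * T.τ (w + w') + (w.1 + w'.1) * T.τ v) =
        π (v.1 * T.τ w + w.1 * T.τ v) + π (v.1 * T.τ w' + w'.1 * T.τ v)
      rw [T.τadd, ← map_add]
      congr 1
      ring
  · rw [Nat.card_prod, hc, ← T.S.card]
    ring
  · have h1 : T.S.B (x, y) (x', y') = 0 := congrArg Prod.fst h
    have h2 : π (x * T.τ (x', y') + x' * T.τ (x, y)) = 0 := congrArg Prod.snd h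
    rw [T.tap x y x' y' hx h1] at h2
    have hk := T.S.k1 x y x' y' hx h1
    set z := x' / x with hz
    have hx' : x' = x * z := by rw [hz]; field_simp
    rw [hx'] at h2
    have h3 : x * (z * T.τ (x, y) + x ^ e * (z + z ^ 2 ^ s)) + x * z * T.τ (x, y) =
        x ^ (1 + e) * (z + z ^ 2 ^ s) + (x * z * T.τ (x, y) + x * z * T.τ (x, y)) := by
      rw [pow_add, pow_one]
      ring
    rw [h3, add_self', add_zero] at h2
    have h4 : x ^ (1 + e) * (z + z ^ 2 ^ s) ∈ F := by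
      rw [hF, mul_pow, he x hx, frob, ← pow_mul, ← pow_add, ← two_mul, hk, add_comm z]
    have h5 := hπ' _ h4 h2
    have h6 := (mul_eq_zero.1 h5).resolve_left (pow_ne_zero _ hx)
    exact (CharTwo.add_eq_zero.1 h6).symm

omit [Algebra (ZMod 2) E] in
/-- the start of the construction -/
theorem Sys.init {s : ℕ} (h : Nat.card E = 2 ^ s) : Nonempty (Sys E s) := by
  refine ⟨{
    Y := PUnit
    Z := PUnit
    φ := fun _ => 0
    B := fun _ _ => 0
    quad := fun _ _ => rfl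
    add := fun _ _ _ => rfl
    card := ?_
    k1 := fun x y x' y' _ _ => ?_
    k2 := fun _ _ _ _ _ => rfl }⟩
  · rw [h]
    simp
  · rw [← h]
    have := Fintype.ofFinite E
    rw [Nat.card_eq_fintype_card]
    exact FiniteField.pow_card _

end Pool.Agent.MP7fa5ba
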